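import Pool.Agent.N637.SLM.LS

/-!
# The largest 2-Selmer group among the quadratic twists of infinitely many curves by the same integer

For coprime integers `a` odd, `c ≠ 0` even and a fundamental discriminant `-n < 0` let
`E_n(a, c) : y² = x (x - a² m) (x + (c² - a²) m)`, `m = -n` or `-n / 4`, be the quadratic twist by `-n` of
`y² = x (x + a²) (x + c²)` (the torsion subgroup of these curves contains `ℤ/2 × ℤ/4`), and
`S = 2 ^ rank * #Ш[2]`, a quarter of the order of its 2-Selmer group. Let `R(n)` be the `4`-rank of the class group of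
`ℚ(√-n)`, and `w = w(a, c, n) = 0` if `(a, c)` is admissible for `n` (the odd primes dividing `a c` are inert in
`ℚ(√-n)`, `n` is a nonresidue modulo the primes dividing `c² - a²`, and `n ≢ 7 mod 8` if `8 ∣ c`, `n = 3 mod 8` if
`c = 2 mod 4`), and `w = 4 ω + 5` otherwise, `ω` the number of the primes dividing `2 a c (c² - a²)`. Let `largest n` be
the supremum of `S(E_n(a, c)) / 2 ^ w(a, c, n)` over ALL pairs `(a, c)`.

Theorem.
* For ALL the negative fundamental discriminants `-n ≠ -4`: `largest n ≤ 4 ^ R(n)` is finite; `R(n) = r` for the natural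
  density `fk r` of the `n` (Fouvry and Klüners); for every `K` the upper average over all `n` of `largest n ^ K` is at
  most `∑ fk(r) 4 ^ (K r)`, finite; it is `5` for `K = 1`.
* Let `a₀² - c₀²` be a square (Pythagorean triples; for example `(5, 4)`). For all the `n` for which `(a₀, c₀)` is
  admissible, a set of positive lower density, the supremum is a maximum, it is attained by `(a₀, c₀)`, and
  `largest n = 4 ^ R(n)`. Hence its exact law in this family: it is `4 ^ r` for the natural density `fk r`, its average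
  is exactly `5`, and the average of its `K`-th power is exactly `∑ fk(r) 4 ^ (K r)`.

For a single elliptic curve the laws of the 2-Selmer groups of the twists are those of Poonen and Rains, with parity
(Heath-Brown, Swinnerton-Dyer, Kane, Smith: no rational cyclic subgroup of order `4`), and other ones for curves with
such a subgroup (`MP_8cb858_nt.SelmerLawX21`, `MP_e23604_nt.JointSelmerLaw`). Here the law of the largest Selmer group of
the infinitely many `n`-th twists is determined. The upper bound is the one of `MP_157626_nt.SupremumOfRanks`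
(helper637 with helpers 873, 490, 849, 468 and others; there it is used for the ranks).
-/

set_option autoImplicit false

open NumberField Filter Topology Finset

namespace Pool.Agent.Results.MP_8e5827_nt.LargestSelmerGroup

open scoped Classical

open Pool.Agent.TH841.SH.D (Sha)

/-- `-n` is a fundamental discriminant. -/
def FundNeg (n : ℕ) : Prop := (Squarefree n ∧ n % 4 = 3) ∨
  ∃ m : ℕ, n = 4 * m ∧ Squarefree m ∧ (m % 4 = 1 ∨ m % 4 = 2)

/-- `-n` is a fundamental discriminant and not `-4`. -/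
def All (n : ℕ) : Prop := FundNeg n ∧ n ≠ 4

/-- The parameters of the curves: `a` odd, `c` even and not `0`, coprime. -/
def Curve (a c : ℤ) : Prop := a % 2 = 1 ∧ c % 2 = 0 ∧ c ≠ 0 ∧ IsCoprime a c

/-- `(a, c)` is admissible for `n`. -/
def Adm (a c : ℤ) (n : ℕ) : Prop :=
  (∀ p : ℕ, p.Prime → p ≠ 2 → (p : ℤ) ∣ a * c → jacobiSym (-(n : ℤ)) p = -1) ∧
  (∀ p : ℕ, p.Prime → (p : ℤ) ∣ c ^ 2 - a ^ 2 → jacobiSym (n : ℤ) p = -1) ∧
  (c % 8 = 4 ∨ (c % 8 = 0 ∧ n % 8 ≠ 7) ∨ (c % 4 = 2 ∧ n % 8 = 3))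

/-- The squarefree integer `m n` with `ℚ(√(m n)) = ℚ(√-n)`. -/
def m (n : ℕ) : ℤ := if n % 2 = 1 then -(n : ℤ) else -((n / 4 : ℕ) : ℤ)

/-- The quadratic twist by `-n` of the curve with the parameters `a`, `c`: the curve
`y² = x (x - a² m) (x + (c² - a²) m)`, `m = m n`. -/
def E (a c : ℤ) (n : ℕ) : WeierstrassCurve ℚ :=
  ⟨0, ((c : ℚ) ^ 2 - 2 * (a : ℚ) ^ 2) * (m n : ℚ), 0,
    -((a : ℚ) ^ 2 * ((c : ℚ) ^ 2 - (a : ℚ) ^ 2) * (m n : ℚ) ^ 2), 0⟩

/-- The rank. -/
noncomputable def rank (W : WeierstrassCurve ℚ) : ℕ := Module.finrank ℤ W.toAffine.Point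

/-- The number `2 ^ rank * #Ш[2]`. -/
noncomputable def S (W : WeierstrassCurve ℚ) : ℝ :=
  (2 : ℝ) ^ rank W * (Nat.card {x : Sha W // 2 • x = 0} : ℝ)

/-- `K` is the quadratic field `ℚ(√-n)`. -/
def IsQuad (n : ℕ) (K : Type) [Field K] [NumberField K] : Prop :=
  Module.finrank ℚ K = 2 ∧ ∃ s : K, s ^ 2 = (m n : K)

/-- The 4-rank of the class group of `K` is `r`: `#Cl(K)[4] = 2 ^ r * #Cl(K)[2]`. -/
def FourRank (K : Type) [Field K] [NumberField K] (r : ℕ) : Prop :=
  Nat.card {c : ClassGroup (𝓞 K) // c ^ 4 = 1} =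
    2 ^ r * Nat.card {c : ClassGroup (𝓞 K) // c ^ 2 = 1}

/-- The number of the primes dividing `2 a c (c² - a²)`. -/
def omega (a c : ℤ) : ℕ := (2 * a * c * (c ^ 2 - a ^ 2)).natAbs.primeFactors.card

/-- The number `w(a, c, n)`. -/
noncomputable def w (a c : ℤ) (n : ℕ) : ℕ := if Adm a c n then 0 else 4 * omega a c + 5

/-- The numbers `S / 2 ^ w` of all the curves. -/
def Sizes (n : ℕ) : Set ℝ := {x : ℝ | ∃ a c : ℤ, Curve a c ∧ x = S (E a c n) / 2 ^ w a c n}

/-- Their supremum. -/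
noncomputable def largest (n : ℕ) : ℝ := sSup (Sizes n)

/-- The `n` for which `(a, c)` is admissible. -/
def Family (a c : ℤ) (n : ℕ) : Prop := FundNeg n ∧ Adm a c n

/-- The order of the group `GL_r` over the field with two elements. -/
def gl (r : ℕ) : ℕ := ∏ i ∈ range r, (2 ^ r - 2 ^ i)

/-- The law of Fouvry and Klüners of the 4-rank. -/
noncomputable def fk (r : ℕ) : ℝ := (∏' l : ℕ, (1 - (1 / 2 : ℝ) ^ (r + 1 + l))) / (gl r : ℝ)

/-- `η = (1 - 1/2) (1 - 1/4) (1 - 1/8) ⋯` -/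
noncomputable def eta : ℝ := ∏' i : ℕ, (1 - (1 / 2 : ℝ) ^ (i + 1))

/-- The number of the `n ≤ X` with the property `Q`. -/
noncomputable def count (Q : ℕ → Prop) (X : ℕ) : ℕ := ((Icc 1 X).filter fun n => Q n).card

/-- The natural density of `Q` in the family `F` is `δ`. -/
def Density (F Q : ℕ → Prop) (δ : ℝ) : Prop :=
  Tendsto (fun X : ℕ => (count (fun n => F n ∧ Q n) X : ℝ) / (count F X : ℝ)) atTop (𝓝 δ)

/-- The average of `g` over the members `n ≤ X` of the family `F`. -/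
noncomputable def avg (F : ℕ → Prop) (g : ℕ → ℝ) (X : ℕ) : ℝ :=
  (∑ n ∈ (Icc 1 X).filter (fun n => F n), g n) / (count F X : ℝ)

/-- The average of `g` over the family `F` is `L`. -/
def Mean (F : ℕ → Prop) (g : ℕ → ℝ) (L : ℝ) : Prop := Tendsto (avg F g) atTop (𝓝 L)

/-- The upper average of `g` over the family `F` is at most `L`. -/
def UpperMean (F : ℕ → Prop) (g : ℕ → ℝ) (L : ℝ) : Prop :=
  ∀ ε : ℝ, 0 < ε → ∀ᶠ X : ℕ in atTop, avg F g X ≤ L + ε

/-- **Main theorem.** `R n` is the 4-rank of the class group of `ℚ(√-n)`. -/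
theorem result : (0.2887 < eta ∧ eta < 0.2889) ∧
    ∃ R : ℕ → ℕ,
    (∀ n : ℕ, All n →
      (∀ (K : Type) [Field K] [NumberField K], IsQuad n K → FourRank K (R n)) ∧
      (∀ a c : ℤ, Curve a c → AddGroup.FG (E a c n).toAffine.Point ∧
        Finite {x : Sha (E a c n) // 2 • x = 0} ∧ S (E a c n) ≤ 2 ^ w a c n * largest n) ∧
      largest n ≤ 4 ^ R n) ∧
    (∀ r : ℕ, Density All (fun n => R n = r) (fk r)) ∧
    UpperMean All largest 5 ∧
    (∀ K : ℕ, Summable (fun r => fk r * 4 ^ (K * r)) ∧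
      UpperMean All (fun n => largest n ^ K) (∑' r, fk r * 4 ^ (K * r))) ∧
    ∀ a₀ c₀ : ℤ, Curve a₀ c₀ → IsSquare (a₀ ^ 2 - c₀ ^ 2) →
      (∃ δ : ℝ, 0 < δ ∧ ∀ᶠ X : ℕ in atTop, δ * X ≤ (count (Family a₀ c₀) X : ℝ)) ∧
      (∀ n : ℕ, Family a₀ c₀ n → All n ∧ S (E a₀ c₀ n) = 4 ^ R n ∧ IsGreatest (Sizes n) (4 ^ R n)) ∧
      (∀ r : ℕ, Density (Family a₀ c₀) (fun n => largest n = 4 ^ r) (fk r)) ∧
      Mean (Family a₀ c₀) largest 5 ∧
      ∀ K : ℕ, Mean (Family a₀ c₀) (fun n => largest n ^ K) (∑' r, fk r * 4 ^ (K * r)) :=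
  Pool.Agent.N637.SLM.AN.mainLS

end Pool.Agent.Results.MP_8e5827_nt.LargestSelmerGroup
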